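import Pool.Agent.Helper18.CPC.St

/-! Module FN of project CPC. -/

set_option autoImplicit false

open Topology Filter Set

namespace Pool.Agent.Helper16.CPC

open Pool.Agent.Helper18.CPC

universe u

theorem m_FN : hFN.{u} := by
  intro R _ _ l s r hs hc ht
  have e1 : ∀ᶠ q in l, q ∈ D s := hs
  have e2 : ∀ c : R × ℕ, ∀ᶠ q in l, q.τ s.length ≠ some c := by
    intro c
    filter_upwards [hs, hc c] with q h1 h2 h3
    exact h2 (mem_D_snoc.2 ⟨h1, h3⟩)
  -- the values at the positions up to the length
  have tval : ∀ k : ℕ, k ≤ s.length →
      Tendsto (fun q : Pt R => val k q) l (𝓝 (val k (fin s r))) := by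
    intro k hk
    rcases Nat.lt_or_ge k s.length with h | h
    · have h1 : s[k]? = some (s[k]) := List.getElem?_eq_getElem h
      have h2 : val k (fin s r) = (s[k]).1 := val_some (by rw [fin_τ, h1])
      rw [h2]
      refine (tendsto_const_nhds (x := (s[k]).1)).congr' ?_
      filter_upwards [e1] with q hq
      exact (val_some (by rw [hq k h, h1])).symm
    · have h1 : k = s.length := le_antisymm hk h
      subst h1
      have h2 : val s.length (fin s r) = r := val_none (by simp)
      rw [h2]
      exact ht
  -- a word is an initial piece of `s` or leaves the filter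
  have tri : ∀ t : List (R × ℕ), (t.length ≤ s.length ∧ ∀ i < t.length, s[i]? = t[i]?) ∨
      ((∀ᶠ q in l, q ∉ D t) ∧ fin s r ∉ D t) := by
    intro t
    by_cases h : ∀ i < t.length, i < s.length → s[i]? = t[i]?
    · rcases Nat.lt_or_ge s.length t.length with hl | hl
      · right
        have h1 : t[s.length]? = some (t[s.length]) := List.getElem?_eq_getElem hl
        constructor
        · filter_upwards [e2 (t[s.length])] with q hq hqt
          exact hq (by rw [hqt _ hl, h1])
        · intro hf
          have h2 := hf _ hl
          rw [fin_τ, h1] at h2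
          simp at h2
      · left
        exact ⟨hl, fun i hi => h i hi (lt_of_lt_of_le hi hl)⟩
    · right
      push Not at h
      obtain ⟨i, hi, hi', hne⟩ := h
      constructor
      · filter_upwards [e1] with q hq hqt
        exact hne (by rw [← hq i hi', hqt i hi])
      · intro hf
        exact hne (by rw [← hf i hi, fin_τ])
  refine le_nhds_iff.2 ⟨fun t => ?_, fun t => ?_, fun w => ?_⟩
  · rcases tri t with ⟨h1, h2⟩ | ⟨h1, h2⟩
    · filter_upwards [e1] with q hq
      refine iff_of_true (fun i hi => ?_) (fun i hi => ?_)
      · rw [hq i (lt_of_lt_of_le hi h1), h2 i hi]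
      · rw [fin_τ, h2 i hi]
    · filter_upwards [h1] with q hq
      exact iff_of_false hq h2
  · rcases tri t with ⟨h1, h2⟩ | ⟨h1, h2⟩
    · have hf : fin s r ∈ D t := fun i hi => by rw [fin_τ, h2 i hi]
      rw [F_mem hf]
      refine (tval t.length h1).congr' ?_
      filter_upwards [e1] with q hq
      have hqt : q ∈ D t := fun i hi => by rw [hq i (lt_of_lt_of_le hi h1), h2 i hi]
      exact (F_mem hqt).symm
    · rw [F_not_mem h2]
      refine tendsto_const_nhds.congr' ?_
      filter_upwards [h1] with q hq
      exact (F_not_mem hq).symm
  · by_cases h : ∀ i < s.length, s[i]? = some (w i)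
    · have h1 : G w (fin s r) = Data.z :=
        G_at_neg (n := s.length) (fun i hi => by rw [fin_τ, h i hi]) (by simp) (by simp)
      rw [h1]
      refine tendsto_const_nhds.congr' ?_
      filter_upwards [e1, e2 (w s.length), e2 (Data.j w)] with q hq h2 h3
      exact (G_at_neg (n := s.length) (fun i hi => by rw [hq i hi, h i hi]) h2 h3).symm
    · classical
      have hex : ∃ m, m < s.length ∧ s[m]? ≠ some (w m) := by
        push Not at h
        exact h
      obtain ⟨hm1, hm2⟩ := Nat.find_spec hex
      have hmin : ∀ i < Nat.find hex, s[i]? = some (w i) := by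
        intro i hi
        by_contra hcon
        exact Nat.find_min hex hi ⟨hi.trans hm1, hcon⟩
      revert hm1 hm2 hmin
      generalize Nat.find hex = m
      intro hm1 hm2 hmin
      by_cases hj : s[m]? = some (Data.j w)
      · have h1 : G w (fin s r) = val (m + 1) (fin s r) :=
          G_at_pos (n := m) (fun i hi => by rw [fin_τ, hmin i hi]) (by rw [fin_τ]; exact hm2)
            (by rw [fin_τ]; exact hj)
        rw [h1]
        refine (tval (m + 1) hm1).congr' ?_
        filter_upwards [e1] with q hq
        exact (G_at_pos (n := m) (fun i hi => by rw [hq i (hi.trans hm1), hmin i hi])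
          (by rw [hq m hm1]; exact hm2) (by rw [hq m hm1]; exact hj)).symm
      · have h1 : G w (fin s r) = Data.z :=
          G_at_neg (n := m) (fun i hi => by rw [fin_τ, hmin i hi]) (by rw [fin_τ]; exact hm2)
            (by rw [fin_τ]; exact hj)
        rw [h1]
        refine tendsto_const_nhds.congr' ?_
        filter_upwards [e1] with q hq
        exact (G_at_neg (n := m) (fun i hi => by rw [hq i (hi.trans hm1), hmin i hi])
          (by rw [hq m hm1]; exact hm2) (by rw [hq m hm1]; exact hj)).symm

end Pool.Agent.Helper16.CPC
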